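import Pool.Agent.Helper84.P2.Private

set_option autoImplicit false

/-!
# Simultaneous approximation with multipliers prime to rough denominators
-/

namespace Pool.Agent.Helper84.TY

open Finset Pool.Agent.Helper84.PC Pool.Agent.Helper84.P2

/-- Dirichlet's theorem on simultaneous approximation. -/
lemma dirichlet {κ : Type*} [DecidableEq κ] (I : Finset κ) (f : κ → ℚ) {Q : ℕ} (hQ : 1 ≤ Q) :
    ∃ a : ℕ, 1 ≤ a ∧ a ≤ Q ^ I.card ∧ ∀ i ∈ I, ∃ z : ℤ, |(a : ℚ) * f i - z| ≤ 1 / Q := by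
  classical
  have hQ0 : (0 : ℚ) < Q := by exact_mod_cast hQ
  have hbox : ∀ (a : ℕ) (i : κ), ⌊(Q : ℚ) * Int.fract ((a : ℚ) * f i)⌋₊ < Q := by
    intro a i
    have h1 : (Q : ℚ) * Int.fract ((a : ℚ) * f i) < Q := by
      have := Int.fract_lt_one ((a : ℚ) * f i)
      nlinarith
    exact (Nat.floor_lt (mul_nonneg hQ0.le (Int.fract_nonneg _))).2 h1
  let φ : ℕ → (I → Fin Q) := fun a i => ⟨⌊(Q : ℚ) * Int.fract ((a : ℚ) * f i)⌋₊, hbox a i⟩
  obtain ⟨a₁, ha₁, a₂, ha₂, hne, heq⟩ := exists_ne_map_eq_of_card_lt_of_maps_to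
    (s := range (Q ^ I.card + 1)) (t := (univ : Finset (I → Fin Q))) (f := φ) (by
      rw [card_univ, card_range, Fintype.card_fun, Fintype.card_fin, Fintype.card_coe]
      omega) (fun _ _ => mem_univ _)
  wlog hlt : a₁ < a₂ generalizing a₁ a₂
  · exact this a₂ ha₂ a₁ ha₁ hne.symm heq.symm (by omega)
  rw [mem_range] at ha₂
  refine ⟨a₂ - a₁, by omega, by omega, fun i hi => ?_⟩
  refine ⟨⌊(a₂ : ℚ) * f i⌋ - ⌊(a₁ : ℚ) * f i⌋, ?_⟩
  have h1 : ⌊(Q : ℚ) * Int.fract ((a₁ : ℚ) * f i)⌋₊ = ⌊(Q : ℚ) * Int.fract ((a₂ : ℚ) * f i)⌋₊ := by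
    have := congrFun heq ⟨i, hi⟩
    exact congrArg Fin.val this
  have e1 := Nat.floor_le (mul_nonneg hQ0.le (Int.fract_nonneg ((a₁ : ℚ) * f i)))
  have e2 := Nat.lt_floor_add_one ((Q : ℚ) * Int.fract ((a₁ : ℚ) * f i))
  have e3 := Nat.floor_le (mul_nonneg hQ0.le (Int.fract_nonneg ((a₂ : ℚ) * f i)))
  have e4 := Nat.lt_floor_add_one ((Q : ℚ) * Int.fract ((a₂ : ℚ) * f i))
  rw [h1] at e1 e2
  have h2 : ((a₂ - a₁ : ℕ) : ℚ) * f i - ((⌊(a₂ : ℚ) * f i⌋ - ⌊(a₁ : ℚ) * f i⌋ : ℤ) : ℚ) =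
      Int.fract ((a₂ : ℚ) * f i) - Int.fract ((a₁ : ℚ) * f i) := by
    have hf : ∀ y : ℚ, Int.fract y = y - ⌊y⌋ := fun y => rfl
    rw [Nat.cast_sub hlt.le, hf, hf]
    push_cast
    ring
  rw [h2]
  have h9 : |(Int.fract ((a₂ : ℚ) * f i) - Int.fract ((a₁ : ℚ) * f i)) * Q| ≤ 1 := by
    rw [abs_le]
    constructor <;> nlinarith
  rw [abs_mul, abs_of_pos hQ0] at h9
  rw [le_div_iff₀ hQ0]
  exact h9

lemma coprime_of_rough {a M : ℕ} (ha : 1 ≤ a) (h : ∀ p : ℕ, p.Prime → p ∣ M → a < p) :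
    Nat.Coprime a M := by
  refine Nat.coprime_of_dvd fun p hp h1 h2 => ?_
  have h3 := Nat.le_of_dvd ha h1
  have h4 := h p hp h2
  omega

/-- Approximation in groups with coprime denominators. -/
theorem approx {ι : Type*} [DecidableEq ι] {n : ℕ} (T : Finset ι) (col : ι → ℕ)
    (f : ι → Fin (n + 1) → ℚ)
    (hcol : ∀ x ∈ T, ∀ y ∈ T, col x ≠ col y → ∀ l l', Nat.Coprime (f x l).den (f y l').den)
    {Q : ℕ} (hQ : 1 ≤ Q)
    (hrough : ∀ x ∈ T, ∀ l, ∀ p : ℕ, p.Prime → p ∣ (f x l).den →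
      Q ^ (n * (T.filter fun y => col y = col x).card) < p) :
    ∃ a : ℤ, (∀ x ∈ T, ∀ l, IsCoprime a ((f x l).den : ℤ)) ∧
      ∀ x ∈ T, ∀ l, l ≠ 0 → ∃ z : ℤ, |(a : ℚ) * f x l - z| ≤ 1 / Q := by
  classical
  -- the groups
  have hdir : ∀ c : ℕ, ∃ a : ℕ, 1 ≤ a ∧ a ≤ Q ^ (n * (T.filter fun y => col y = c).card) ∧
      ∀ x ∈ T, col x = c → ∀ l, l ≠ 0 → ∃ z : ℤ, |(a : ℚ) * f x l - z| ≤ 1 / Q := by
    intro c
    obtain ⟨a, h1, h2, h3⟩ := dirichlet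
      ((T.filter fun y => col y = c) ×ˢ ((univ : Finset (Fin (n + 1))).erase 0))
      (fun i => f i.1 i.2) hQ
    have hcard : ((T.filter fun y => col y = c) ×ˢ ((univ : Finset (Fin (n + 1))).erase 0)).card =
        n * (T.filter fun y => col y = c).card := by
      rw [card_product, card_erase_of_mem (mem_univ _), card_univ, Fintype.card_fin,
        Nat.add_sub_cancel, mul_comm]
    rw [hcard] at h2
    exact ⟨a, h1, h2, fun x hx hxc l hl => h3 (x, l)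
      (mem_product.2 ⟨mem_filter.2 ⟨hx, hxc⟩, mem_erase.2 ⟨hl, mem_univ _⟩⟩)⟩
  choose A hA1 hA2 hA3 using hdir
  set M : ℕ → ℤ := fun c => ∏ x ∈ T.filter (fun y => col y = c), ∏ l, ((f x l).den : ℤ) with hM
  obtain ⟨a, ha⟩ := crt (T.image col) M (by
    intro c _ c' _ hcc
    refine IsCoprime.prod_left fun x hx => IsCoprime.prod_left fun l _ =>
      IsCoprime.prod_right fun y hy => IsCoprime.prod_right fun l' _ => ?_
    rw [mem_filter] at hx hy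
    exact Nat.isCoprime_iff_coprime.2 (hcol x hx.1 y hy.1 (by rw [hx.2, hy.2]; exact hcc) l l'))
    (fun c => (A c : ℤ))
  have hdv : ∀ x ∈ T, ∀ l, ((f x l).den : ℤ) ∣ a - A (col x) := by
    intro x hx l
    have h1 := ha (col x) (mem_image_of_mem _ hx)
    refine dvd_trans ?_ h1
    have h2 : ((f x l).den : ℤ) ∣ ∏ l, ((f x l).den : ℤ) :=
      dvd_prod_of_mem (fun l => ((f x l).den : ℤ)) (mem_univ l)
    exact h2.trans (dvd_prod_of_mem (fun x => ∏ l, ((f x l).den : ℤ))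
      (mem_filter.2 ⟨hx, rfl⟩ : x ∈ T.filter fun y => col y = col x))
  refine ⟨a, fun x hx l => ?_, fun x hx l hl => ?_⟩
  · obtain ⟨k, hk⟩ := hdv x hx l
    have h1 : a = A (col x) + (f x l).den * k := by linarith
    rw [h1]
    refine IsCoprime.add_mul_left_left ?_ k
    refine Nat.isCoprime_iff_coprime.2 (coprime_of_rough (hA1 _) fun p hp hpd => ?_)
    exact lt_of_le_of_lt (hA2 _) (hrough x hx l p hp hpd)
  · obtain ⟨z, hz⟩ := hA3 (col x) x hx rfl l hl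
    obtain ⟨k, hk⟩ := hdv x hx l
    refine ⟨z + k * (f x l).num, ?_⟩
    have h1 : (a : ℚ) = A (col x) + (f x l).den * k := by
      have : a = A (col x) + (f x l).den * k := by linarith
      rw [this]; push_cast; ring
    have h2 := Rat.mul_den_eq_num (f x l)
    have h3 : (a : ℚ) * f x l - ((z + k * (f x l).num : ℤ) : ℚ) = (A (col x) : ℚ) * f x l - z := by
      rw [h1]
      push_cast
      rw [← h2]
      ring
    rw [h3]
    exact hz

end Pool.Agent.Helper84.TY
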