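import Pool.Agent.Helper84.TY.Approx

set_option autoImplicit false

/-!
# One point of private prime order and groups of points with rough denominators
-/

namespace Pool.Agent.Helper84.TY

open Finset Pool.Agent.Helper84.PC Pool.Agent.Helper84.P2

/-- Approximation in groups with coprime denominators, the quality depending on the group. -/
theorem approx_col {ι : Type*} [DecidableEq ι] {n : ℕ} (T : Finset ι) (col : ι → ℕ)
    (f : ι → Fin (n + 1) → ℚ)
    (hcol : ∀ x ∈ T, ∀ y ∈ T, col x ≠ col y → ∀ l l', Nat.Coprime (f x l).den (f y l').den)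
    {Q : ℕ → ℕ} (hQ : ∀ c, 1 ≤ Q c)
    (hrough : ∀ x ∈ T, ∀ l, ∀ p : ℕ, p.Prime → p ∣ (f x l).den →
      Q (col x) ^ (n * (T.filter fun y => col y = col x).card) < p) :
    ∃ a : ℤ, (∀ x ∈ T, ∀ l, IsCoprime a ((f x l).den : ℤ)) ∧
      ∀ x ∈ T, ∀ l, l ≠ 0 → ∃ z : ℤ, |(a : ℚ) * f x l - z| ≤ 1 / Q (col x) := by
  classical
  -- the groups
  have hdir : ∀ c : ℕ, ∃ a : ℕ, 1 ≤ a ∧ a ≤ Q c ^ (n * (T.filter fun y => col y = c).card) ∧
      ∀ x ∈ T, col x = c → ∀ l, l ≠ 0 → ∃ z : ℤ, |(a : ℚ) * f x l - z| ≤ 1 / Q c := by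
    intro c
    obtain ⟨a, h1, h2, h3⟩ := dirichlet
      ((T.filter fun y => col y = c) ×ˢ ((univ : Finset (Fin (n + 1))).erase 0))
      (fun i => f i.1 i.2) (hQ c)
    have hcard : ((T.filter fun y => col y = c) ×ˢ ((univ : Finset (Fin (n + 1))).erase 0)).card =
        n * (T.filter fun y => col y = c).card := by
      rw [card_product, card_erase_of_mem (mem_univ _), card_univ, Fintype.card_fin,
        Nat.add_sub_cancel, mul_comm]
    rw [hcard] at h2
    exact ⟨a, h1, h2, fun x hx hxc l hl => h3 (x, l)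
      (mem_product.2 ⟨mem_filter.2 ⟨hx, hxc⟩, mem_erase.2 ⟨hl, mem_univ _⟩⟩)⟩
  choose A hA1 hA2 hA3 using hdir
  set M : ℕ → ℤ := fun c => ∏ x ∈ T.filter (fun y => col y = c), ∏ l, ((f x l).den : ℤ) with hM
  obtain ⟨a, ha⟩ := crt (T.image col) M (by
    intro c _ c' _ hcc
    refine IsCoprime.prod_left fun x hx => IsCoprime.prod_left fun l _ =>
      IsCoprime.prod_right fun y hy => IsCoprime.prod_right fun l' _ => ?_
    rw [mem_filter] at hx hy
    exact Nat.isCoprime_iff_coprime.2 (hcol x hx.1 y hy.1 (by rw [hx.2, hy.2]; exact hcc) l l'))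
    (fun c => (A c : ℤ))
  have hdv : ∀ x ∈ T, ∀ l, ((f x l).den : ℤ) ∣ a - A (col x) := by
    intro x hx l
    have h1 := ha (col x) (mem_image_of_mem _ hx)
    refine dvd_trans ?_ h1
    have h2 : ((f x l).den : ℤ) ∣ ∏ l, ((f x l).den : ℤ) :=
      dvd_prod_of_mem (fun l => ((f x l).den : ℤ)) (mem_univ l)
    exact h2.trans (dvd_prod_of_mem (fun x => ∏ l, ((f x l).den : ℤ))
      (mem_filter.2 ⟨hx, rfl⟩ : x ∈ T.filter fun y => col y = col x))
  refine ⟨a, fun x hx l => ?_, fun x hx l hl => ?_⟩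
  · obtain ⟨k, hk⟩ := hdv x hx l
    have h1 : a = A (col x) + (f x l).den * k := by linarith
    rw [h1]
    refine IsCoprime.add_mul_left_left ?_ k
    refine Nat.isCoprime_iff_coprime.2 (coprime_of_rough (hA1 _) fun p hp hpd => ?_)
    exact lt_of_le_of_lt (hA2 _) (hrough x hx l p hp hpd)
  · obtain ⟨z, hz⟩ := hA3 (col x) x hx rfl l hl
    obtain ⟨k, hk⟩ := hdv x hx l
    refine ⟨z + k * (f x l).num, ?_⟩
    have h1 : (a : ℚ) = A (col x) + (f x l).den * k := by
      have : a = A (col x) + (f x l).den * k := by linarith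
      rw [this]; push_cast; ring
    have h2 := Rat.mul_den_eq_num (f x l)
    have h3 : (a : ℚ) * f x l - ((z + k * (f x l).num : ℤ) : ℚ) = (A (col x) : ℚ) * f x l - z := by
      rw [h1]
      push_cast
      rw [← h2]
      ring
    rw [h3]
    exact hz

variable {ι : Type*} [Fintype ι] [DecidableEq ι] {n : ℕ}

theorem groups {e : ι → Fin (n + 1) → ℚ} {N : ℕ} (hN : 0 < N)
    (hNe : ∀ x l, ∃ w : ℤ, (N : ℚ) * e x l = w)
    {F : ℤ} (hF : ∑ x, ∑ l, e x l = F) (G : Ineq e N) (hn : 1 ≤ n) (z : ι) (S : Finset ι)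
    (hzS : z ∉ S) {p : ℕ} (hp : p.Prime) (hpn : n + 1 < p)
    (hz : ∀ l l', ∃ w : ℤ, (p : ℚ) * (e z l - e z l') = w)
    (hpS : ∀ x ∈ S, ∀ l, ¬ p ∣ (e x l - e x 0).den) (col : ι → ℕ)
    (hcol : ∀ x ∈ S, ∀ y ∈ S, col x ≠ col y → ∀ l l',
      Nat.Coprime (e x l - e x 0).den (e y l' - e y 0).den)
    {Q : ℕ → ℕ} (hQ : ∀ c, 1 ≤ Q c)
    (hrough : ∀ x ∈ S, ∀ l, ∀ p : ℕ, p.Prime → p ∣ (e x l - e x 0).den →
      Q (col x) ^ (n * (S.filter fun y => col y = col x).card) < p)
    {k₁ k₂ : Fin (n + 1)} (hk : (e z k₁ - e z k₂).den ≠ 1) {μ : ℕ} (hμ1 : μ ≤ mult (e z) k₁)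
    (hμ2 : μ ≤ mult (e z) k₂) {M : ℕ} (hM0 : 0 < M) (hpM : ¬ p ∣ M)
    (hSM : ∀ x ∈ S, ∀ l, Nat.Coprime (e x l - e x 0).den M)
    (hMd : ∀ x, x ≠ z → x ∉ S → ∀ l l', ∃ w : ℤ, (M : ℚ) * (e x l - e x l') = w)
    (κ : ι → Fin (n + 1)) (a : ℤ) (ha : IsCoprime a (M : ℤ)) :
    (μ : ℚ) / 2 ≤ ∑ x ∈ univ \ insert z S, ∑ l, Int.fract ((a : ℚ) * (e x l - e x (κ x))) +
      ∑ x ∈ S, 2 * (n + 1) / (Q (col x) : ℚ) + (n + 1) / p := by
  classical
  have hQ0 : ∀ c, (0 : ℚ) < Q c := fun c => by exact_mod_cast hQ c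
  obtain ⟨a₀, ha₀, happ⟩ := approx_col S col (fun x l => e x l - e x 0) hcol hQ hrough
  -- the combined multiplier
  set R : ℕ := ∏ x ∈ S, ∏ l, (e x l - e x 0).den with hR
  have hR0 : 0 < R := prod_pos fun x _ => prod_pos fun l _ => Rat.den_pos _
  have hRM : IsCoprime (R : ℤ) (M : ℤ) := by
    rw [Nat.isCoprime_iff_coprime, hR]
    exact Nat.Coprime.prod_left fun x hx => Nat.Coprime.prod_left fun l _ => hSM x hx l
  obtain ⟨a', haR, haM⟩ := combine hRM a₀ a
  have hcM : IsCoprime a' (M : ℤ) := by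
    obtain ⟨c, hc⟩ := haM
    have : a' = a + M * c := by linarith
    rw [this]
    exact IsCoprime.add_mul_left_left ha c
  have hcR : IsCoprime a' (R : ℤ) := by
    have h1 : IsCoprime a₀ (R : ℤ) := by
      rw [hR]; push_cast
      exact IsCoprime.prod_right fun x hx => IsCoprime.prod_right fun l _ => ha₀ x hx l
    obtain ⟨c, hc⟩ := haR
    have : a' = a₀ + R * c := by linarith
    rw [this]
    exact IsCoprime.add_mul_left_left h1 c
  have hpR : ¬ p ∣ M * R := by
    rw [Nat.Prime.dvd_mul hp]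
    rintro (h | h)
    · exact hpM h
    · obtain ⟨x, hx, hdv⟩ := (Prime.dvd_finsetProd_iff hp.prime _).1 h
      obtain ⟨l, _, hdv⟩ := (Prime.dvd_finsetProd_iff hp.prime _).1 hdv
      exact hpS x hx l hdv
  have hdR : ∀ x ∈ S, ∀ l, (e x l - e x 0).den ∣ R := fun x hx l =>
    (dvd_prod_of_mem (fun l => (e x l - e x 0).den) (mem_univ l)).trans
      (dvd_prod_of_mem (fun x => ∏ l, (e x l - e x 0).den) hx)
  have hRd : ∀ x ∈ S, ∀ l, ∃ w : ℤ, (R : ℚ) * (e x l - e x 0) = w := by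
    intro x hx l
    obtain ⟨c, hc⟩ := hdR x hx l
    refine ⟨c * (e x l - e x 0).num, ?_⟩
    rw [hc]
    push_cast
    rw [← Rat.mul_den_eq_num (e x l - e x 0)]; ring
  have hMd' : ∀ x, x ≠ z → ∀ l l', ∃ w : ℤ, ((M * R : ℕ) : ℚ) * (e x l - e x l') = w := by
    intro x hx l l'
    by_cases hxS : x ∈ S
    · obtain ⟨w, hw⟩ := hRd x hxS l
      obtain ⟨w', hw'⟩ := hRd x hxS l'
      refine ⟨M * (w - w'), ?_⟩
      push_cast
      rw [← hw, ← hw']; ring
    · obtain ⟨w, hw⟩ := hMd x hx hxS l l'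
      refine ⟨R * w, ?_⟩
      push_cast
      rw [← hw]; ring
  -- the residues at the points of `S`
  have hres : ∀ x, ∃ κ' : Fin (n + 1), x ∈ S →
      ∀ l, Int.fract ((a' : ℚ) * (e x l - e x κ')) ≤ 2 / Q (col x) := by
    intro x
    by_cases hx : x ∈ S
    · have h1 : ∀ l, ∃ z : ℤ, |(a' : ℚ) * (e x l - e x 0) - z| ≤ 1 / Q (col x) := by
        intro l
        by_cases hl : l = 0
        · subst hl
          exact ⟨0, by rw [sub_self, mul_zero, Int.cast_zero, sub_zero, abs_zero]; exact (div_pos one_pos (hQ0 _)).le⟩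
        · obtain ⟨z, hz⟩ := happ x hx l hl
          obtain ⟨w, hw⟩ := mul_congr haR (hRd x hx l)
          refine ⟨z + w, ?_⟩
          have : (a' : ℚ) * (e x l - e x 0) - ((z + w : ℤ) : ℚ) =
              (a₀ : ℚ) * (e x l - e x 0) - z := by
            push_cast; linarith
          rw [this]
          exact hz
      choose zz hzz using h1
      set r : Fin (n + 1) → ℚ := fun l => (a' : ℚ) * (e x l - e x 0) - zz l with hr
      obtain ⟨κ', -, hκ'⟩ := exists_min_image (univ : Finset (Fin (n + 1))) r univ_nonempty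
      refine ⟨κ', fun _ l => ?_⟩
      have h2 : Int.fract ((a' : ℚ) * (e x l - e x κ')) = Int.fract (r l - r κ') := by
        apply fract_congr
        refine ⟨zz l - zz κ', ?_⟩
        simp only [hr]
        push_cast
        ring
      rw [h2]
      have h3 := hκ' l (mem_univ l)
      have h4 := (abs_le.1 (hzz l)).2
      have h5 := (abs_le.1 (hzz κ')).1
      have h6 : r l - r κ' ≤ 2 / Q (col x) := by
        have e2 : (2 : ℚ) / Q (col x) = 1 / Q (col x) + 1 / Q (col x) := by ring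
        rw [e2]
        simp only [hr]
        linarith
      have h7 : (0 : ℤ) ≤ ⌊r l - r κ'⌋ := Int.floor_nonneg.2 (by linarith)
      have h8 : (0 : ℚ) ≤ ⌊r l - r κ'⌋ := by exact_mod_cast h7
      have h9 := Int.self_sub_floor (r l - r κ')
      linarith
    · exact ⟨0, fun h => absurd h hx⟩
  choose κ' hκ' using hres
  have hmain := core hN hNe hF G z hp (by omega) hpn hz hk hμ1 hμ2 (Nat.mul_pos hM0 hR0) hpR hMd'
    (fun x => if x ∈ S then κ' x else κ x) a' (by push_cast; exact hcM.mul_right hcR)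
  push_cast at hmain
  refine hmain.trans (add_le_add_left ?_ _)
  have hsplit : univ.erase z = (univ \ insert z S) ∪ S := by
    ext x
    simp only [mem_erase, mem_univ, and_true, mem_union, mem_sdiff, true_and, mem_insert, not_or]
    constructor
    · intro h
      by_cases hx : x ∈ S
      · exact Or.inr hx
      · exact Or.inl ⟨h, hx⟩
    · rintro (h | h)
      · exact h.1
      · rintro rfl; exact hzS h
  have hdis : Disjoint (univ \ insert z S) S := by
    rw [disjoint_left]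
    intro x hx hx'
    exact (mem_sdiff.1 hx).2 (mem_insert_of_mem hx')
  rw [hsplit, sum_union hdis]
  refine add_le_add (le_of_eq (sum_congr rfl fun x hx => sum_congr rfl fun l _ => ?_)) ?_
  · have hxi := (mem_sdiff.1 hx).2
    rw [mem_insert, not_or] at hxi
    rw [if_neg hxi.2]
    exact fract_congr (mul_congr haM (hMd x hxi.1 hxi.2 _ _))
  · have h1 : ∀ x ∈ S, ∑ l, Int.fract ((a' : ℚ) * (e x l - e x (if x ∈ S then κ' x else κ x))) ≤
        2 * (n + 1) / (Q (col x) : ℚ) := by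
      intro x hx
      rw [if_pos hx]
      refine (sum_le_sum fun l _ => hκ' x hx l).trans (le_of_eq ?_)
      rw [sum_const, card_univ, Fintype.card_fin, nsmul_eq_mul]
      push_cast
      ring
    exact sum_le_sum h1

end Pool.Agent.Helper84.TY
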