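import Pool.Agent.Helper84.TY.Approx

set_option autoImplicit false

/-!
# Clusters of exponents and the type
-/

namespace Pool.Agent.Helper84.TY

open Finset Pool.Agent.Helper84.PC Pool.Agent.Helper84.P2

variable {ι : Type*} [Fintype ι] [DecidableEq ι] {n : ℕ}

/-- The inequality for line subbundles for lifts of the exponents and lower bounds for them. -/
theorem crit {e : ι → Fin n → ℚ} {N : ℕ} {F : ℤ} (hF : ∑ x, ∑ l, e x l = F) (G : Ineq e N)
    (x₀ : ι) {a : ℤ} (ha : IsCoprime a (N : ℤ)) (v : ι → Fin n → ℤ) (mn : ι → ℚ)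
    (hmn : ∀ x l, mn x ≤ (a : ℚ) * e x l - v x l) {j k : ℤ}
    (hSg : a * F - ∑ x, ∑ l, v x l = n * k + j) (hj : j < n) :
    (j : ℚ) < ∑ x, ∑ l, ((a : ℚ) * e x l - v x l - mn x) := by
  by_contra hcon
  rw [not_lt] at hcon
  have hn0 : (0 : ℚ) ≤ n := Nat.cast_nonneg n
  have hT0 : ∑ x, ∑ l, ((a : ℚ) * e x l - v x l - mn x) = (n : ℚ) * k + j - n * ∑ x, mn x := by
    have h1 : ∑ x, ∑ l, ((a : ℚ) * e x l - v x l - mn x) =
        (a : ℚ) * ∑ x, ∑ l, e x l - ∑ x, ∑ l, (v x l : ℚ) - n * ∑ x, mn x := by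
      rw [mul_sum, mul_sum, ← sum_sub_distrib, ← sum_sub_distrib]
      refine sum_congr rfl fun x _ => ?_
      rw [sum_sub_distrib, sum_sub_distrib, ← mul_sum, sum_const, card_univ, Fintype.card_fin,
        nsmul_eq_mul]
    rw [h1, hF]
    have h2 : (a : ℚ) * F - ∑ x, ∑ l, (v x l : ℚ) = n * k + j := by exact_mod_cast hSg
    linarith
  rcases Nat.eq_zero_or_pos n with h0 | hnpos
  · subst h0
    simp only [univ_eq_empty, sum_empty, sum_const_zero] at hcon
    have : (j : ℚ) < 0 := by exact_mod_cast hj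
    linarith
  have hnp : (0 : ℚ) < n := by exact_mod_cast hnpos
  set t : ℚ := ∑ x, mn x - k with ht
  have ht0 : 0 ≤ t := by
    rw [hT0] at hcon
    have : (n : ℚ) * t ≥ 0 := by rw [ht]; nlinarith
    exact nonneg_of_mul_nonneg_right this hnp
  set s : ι → ℚ := fun x => if x = x₀ then t else 0 with hs
  have hs0 : ∀ x, 0 ≤ s x := by
    intro x
    simp only [hs]
    split_ifs
    · exact ht0
    · exact le_rfl
  have hss : ∑ x, s x = t := by simp only [hs, sum_ite_eq', mem_univ, if_true]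
  have hsum : ∑ x, (mn x - s x) = (k : ℚ) := by
    rw [sum_sub_distrib, hss, ht]; ring
  have h := G a ha (fun x => mn x - s x) k hsum
  have hfr : ∀ y : ℚ, 0 ≤ y → Int.fract y ≤ y := by
    intro y hy
    have : (0 : ℤ) ≤ ⌊y⌋ := Int.floor_nonneg.2 hy
    have h2 : (0 : ℚ) ≤ ⌊y⌋ := by exact_mod_cast this
    have h3 := Int.self_sub_floor y
    linarith
  have hb : ∀ x, ∀ l, Int.fract ((a : ℚ) * e x l - (mn x - s x)) ≤
      ((a : ℚ) * e x l - v x l - mn x) + s x := by
    intro x l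
    have h1 : Int.fract ((a : ℚ) * e x l - (mn x - s x)) =
        Int.fract ((a : ℚ) * e x l - v x l - mn x + s x) := by
      apply fract_congr
      exact ⟨v x l, by ring⟩
    rw [h1]
    exact hfr _ (by linarith [hmn x l, hs0 x])
  have h2 := sum_le_sum fun x (_ : x ∈ univ) => sum_le_sum fun l (_ : l ∈ univ) => hb x l
  have h3 : ∑ x, ∑ l : Fin n, (((a : ℚ) * e x l - v x l - mn x) + s x) =
      ∑ x, ∑ l, ((a : ℚ) * e x l - v x l - mn x) + n * t := by
    rw [← hss, mul_sum, ← sum_add_distrib]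
    refine sum_congr rfl fun x _ => ?_
    rw [sum_add_distrib, sum_const, card_univ, Fintype.card_fin, nsmul_eq_mul]
  rw [h3, hT0] at h2
  have h4 : (j : ℚ) < n := by exact_mod_cast hj
  have h5 : (n : ℚ) * k + j - n * ∑ x, mn x + n * t = j := by rw [ht]; ring
  linarith

/-- **Nonzero type.** -/
theorem nonzero_type {e : ι → Fin (n + 1) → ℚ} {N : ℕ} (hN : 0 < N)
    (hNe : ∀ x l, ∃ w : ℤ, (N : ℚ) * e x l = w) {F : ℤ} (hF : ∑ x, ∑ l, e x l = F)
    (G : Ineq e N) (x₀ : ι) (hn : 1 ≤ n) (ε : ι → ℚ)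
    (hε : ∀ x, ∃ w : ℤ, ∑ l, (e x l - ε x) = w) (hsum : ∀ w : ℤ, ∑ x, ε x ≠ w) (T : Finset ι)
    (hT : ∀ x, x ∉ T → ∀ l, (e x l - ε x).den = 1) (col : ι → ℕ)
    (hcol : ∀ x ∈ T, ∀ y ∈ T, col x ≠ col y → ∀ l l',
      Nat.Coprime (e x l - ε x).den (e y l' - ε y).den)
    (hrough : ∀ x ∈ T, ∀ l, ∀ p : ℕ, p.Prime → p ∣ (e x l - ε x).den →
      ((n + 1) * n * T.card) ^ (n * (T.filter fun y => col y = col x).card) < p) : False := by
  classical
  rcases T.eq_empty_or_nonempty with hTe | hTne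
  · -- no nontrivial points
    subst hTe
    have hint : ∀ x l, ∃ z : ℤ, e x l - ε x = z := fun x l => int_of_den (hT x (notMem_empty x) l)
    choose z hz using hint
    have hS : ((F - ∑ x, ∑ l, z x l : ℤ) : ℚ) = ((n + 1 : ℕ) : ℚ) * ∑ x, ε x := by
      push_cast
      rw [← hF, ← sum_sub_distrib, mul_sum]
      refine sum_congr rfl fun x _ => ?_
      rw [← sum_sub_distrib]
      have : ∀ l, e x l - (z x l : ℚ) = ε x := fun l => by rw [← hz x l]; ring
      rw [sum_congr rfl fun l _ => this l, sum_const, card_univ, Fintype.card_fin, nsmul_eq_mul]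
      push_cast; ring
    set S := F - ∑ x, ∑ l, z x l with hSdef
    have hnd : ¬ ((n + 1 : ℕ) : ℤ) ∣ S := by
      rintro ⟨k, hk⟩
      apply hsum k
      have h1 : (S : ℚ) = ((n + 1 : ℕ) : ℚ) * k := by exact_mod_cast hk
      rw [hS] at h1
      exact mul_left_cancel₀ (by positivity) h1
    have hmod := Int.emod_nonneg S (b := ((n + 1 : ℕ) : ℤ)) (by omega)
    have hmod' := Int.emod_lt_of_pos S (b := ((n + 1 : ℕ) : ℤ)) (by omega)
    have hne : S % ((n + 1 : ℕ) : ℤ) ≠ 0 := fun h => hnd (Int.dvd_of_emod_eq_zero h)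
    have h := crit hF G x₀ (a := 1) isCoprime_one_left z ε
      (fun x l => by rw [Int.cast_one, one_mul]; linarith [hz x l])
      (j := S % ((n + 1 : ℕ) : ℤ)) (k := S / ((n + 1 : ℕ) : ℤ))
      (by rw [one_mul, ← hSdef]; exact (Int.mul_ediv_add_emod S _).symm) hmod'
    have h0 : ∑ x, ∑ l, (((1 : ℤ) : ℚ) * e x l - z x l - ε x) = 0 :=
      sum_eq_zero fun x _ => sum_eq_zero fun l _ => by rw [← hz x l]; push_cast; ring
    rw [h0] at h
    have h1 : (0 : ℚ) ≤ ((S % ((n + 1 : ℕ) : ℤ) : ℤ) : ℚ) := by exact_mod_cast hmod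
    linarith
  set s := T.card with hs
  have hs0 : 1 ≤ s := card_pos.2 hTne
  set Q := (n + 1) * n * s with hQ
  have hQn : n + 1 ≤ Q := by
    rw [hQ, mul_assoc]
    exact Nat.le_mul_of_pos_right _ (Nat.mul_pos (by omega) hs0)
  have hQ1 : 1 ≤ Q := by omega
  have hQ0 : (0 : ℚ) < Q := by exact_mod_cast hQ1
  obtain ⟨a₀, ha₀, happ⟩ := approx T col (fun x l => e x l - ε x) hcol hQ1 hrough
  -- the denominators divide `N`
  have hNd : ∀ x l, ∃ w : ℤ, (N : ℚ) * (e x l - ε x) = w := by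
    intro x l
    by_cases hx : x ∈ T
    · have h1 : ∃ w : ℤ, ((N * (n + 1) : ℕ) : ℚ) * (e x l - ε x) = w := by
        obtain ⟨w, hw⟩ := hε x
        choose u hu using hNe x
        refine ⟨N * w + ∑ l', (u l - u l'), ?_⟩
        push_cast
        rw [← hw, ← hu, sum_sub_distrib, sum_sub_distrib]
        simp only [← hu, sum_const, card_univ, Fintype.card_fin, nsmul_eq_mul]
        push_cast
        rw [← mul_sum]
        ring
      have h2 : (e x l - ε x).den ∣ N * (n + 1) := by
        obtain ⟨w, hw⟩ := h1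
        have h3 : (((N * (n + 1) : ℕ) : ℤ) : ℚ) * (e x l - ε x) = w := by exact_mod_cast hw
        have h4 : ((e x l - ε x).den : ℤ) ∣ ((N * (n + 1) : ℕ) : ℤ) := by
          have h5 := Rat.mul_den_eq_num (e x l - ε x)
          have h6 : ((N * (n + 1) : ℕ) : ℤ) * (e x l - ε x).num = w * (e x l - ε x).den := by
            have : ((((N * (n + 1) : ℕ) : ℤ) * (e x l - ε x).num : ℤ) : ℚ) =
                ((w * (e x l - ε x).den : ℤ) : ℚ) := by
              push_cast at h3 ⊢
              rw [← h5, ← h3]; ring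
            exact_mod_cast this
          have h7 : IsCoprime ((e x l - ε x).den : ℤ) (e x l - ε x).num := by
            rw [Int.isCoprime_iff_gcd_eq_one]
            have := (e x l - ε x).reduced.symm
            simpa [Int.gcd] using this
          exact h7.dvd_of_dvd_mul_right ⟨w, by rw [h6]; ring⟩
        exact_mod_cast h4
      have h3 : Nat.Coprime (e x l - ε x).den (n + 1) := by
        refine (coprime_of_rough (by omega) fun p hp hpd => ?_).symm
        refine lt_of_le_of_lt ?_ (hrough x hx l p hp hpd)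
        have hk : 1 ≤ n * (T.filter fun y => col y = col x).card :=
          Nat.mul_pos (by omega) (card_pos.2 ⟨x, mem_filter.2 ⟨hx, rfl⟩⟩)
        calc n + 1 ≤ Q := hQn
          _ = Q ^ 1 := (pow_one _).symm
          _ ≤ _ := Nat.pow_le_pow_right (by omega) hk
      obtain ⟨c, hc⟩ := h3.dvd_of_dvd_mul_right h2
      refine ⟨c * (e x l - ε x).num, ?_⟩
      rw [hc]
      push_cast
      rw [← Rat.mul_den_eq_num (e x l - ε x)]; ring
    · obtain ⟨w, hw⟩ := int_of_den (hT x hx l)
      exact ⟨N * w, by rw [hw]; push_cast; ring⟩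
  -- the multiplier
  set D₀ : ℕ := ∏ x ∈ T, ∏ l, (e x l - ε x).den with hD₀
  have hD₀0 : 0 < D₀ := prod_pos fun x _ => prod_pos fun l _ => (e x l - ε x).den_pos
  have ha₀D : IsCoprime a₀ (D₀ : ℤ) := by
    rw [hD₀]
    push_cast
    exact IsCoprime.prod_right fun x hx => IsCoprime.prod_right fun l _ => ha₀ x hx l
  obtain ⟨a, haN, hdv⟩ := exists_lift (q := D₀) (N := D₀ * N) (Nat.mul_pos hD₀0 hN)
    (dvd_mul_right _ _) a₀ ha₀D
  push_cast at haN
  have haN' : IsCoprime a (N : ℤ) := IsCoprime.of_mul_right_right haN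
  set c : ι → ℚ := fun x => if x ∈ T then (n : ℚ) / Q else 0 with hc
  -- the residues
  have hres : ∀ x, ∃ (z : Fin (n + 1) → ℤ), (∀ l, |(a : ℚ) * (e x l - ε x) - z l| ≤ c x) ∧
      ∑ l, ((a : ℚ) * (e x l - ε x) - z l) = 0 := by
    intro x
    obtain ⟨w, hw⟩ := hε x
    have hsplit : ∀ (I : Finset (Fin (n + 1))) (z : Fin (n + 1) → ℤ),
        ∑ l ∈ I, ((a : ℚ) * (e x l - ε x) - z l) =
          a * ∑ l ∈ I, (e x l - ε x) - ∑ l ∈ I, (z l : ℚ) := by
      intro I z
      rw [sum_sub_distrib, mul_sum]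
    by_cases hx : x ∈ T
    · have h1 : ∀ l, l ≠ 0 → ∃ z : ℤ, |(a : ℚ) * (e x l - ε x) - z| ≤ 1 / Q := by
        intro l hl
        obtain ⟨z, hz⟩ := happ x hx l hl
        obtain ⟨k, hk⟩ := hdv
        have hdd : (e x l - ε x).den ∣ D₀ :=
          (dvd_prod_of_mem (fun l => (e x l - ε x).den) (mem_univ l)).trans
            (dvd_prod_of_mem (fun x => ∏ l, (e x l - ε x).den) hx)
        obtain ⟨r, hr⟩ := hdd
        refine ⟨z + r * k * (e x l - ε x).num, ?_⟩
        have h2 : (a : ℚ) = a₀ + (e x l - ε x).den * r * k := by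
          have : a = a₀ + D₀ * k := by linarith
          rw [this, hr]; push_cast; ring
        have h3 := Rat.mul_den_eq_num (e x l - ε x)
        have h4 : (a : ℚ) * (e x l - ε x) - ((z + r * k * (e x l - ε x).num : ℤ) : ℚ) =
            (a₀ : ℚ) * (e x l - ε x) - z := by
          rw [h2]
          push_cast
          rw [← h3]
          ring
        rw [h4]
        exact hz
      have h1' : ∀ l, ∃ z : ℤ, l ≠ 0 → |(a : ℚ) * (e x l - ε x) - z| ≤ 1 / Q := by
        intro l
        by_cases hl : l = 0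
        · exact ⟨0, fun h => absurd hl h⟩
        · obtain ⟨z, hz⟩ := h1 l hl
          exact ⟨z, fun _ => hz⟩
      choose z hz using h1'
      refine ⟨fun l => if l = 0 then a * w - ∑ l' ∈ univ.erase 0, z l' else z l, ?_, ?_⟩
      · intro l
        have hcx : c x = (n : ℚ) / Q := by simp only [hc]; rw [if_pos hx]
        rw [hcx]
        by_cases hl : l = 0
        · subst hl
          beta_reduce
          rw [if_pos rfl]
          have h5 : (a : ℚ) * (e x 0 - ε x) - ((a * w - ∑ l' ∈ univ.erase 0, z l' : ℤ) : ℚ) =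
              -∑ l' ∈ univ.erase 0, ((a : ℚ) * (e x l' - ε x) - z l') := by
            rw [hsplit]
            push_cast
            rw [← hw, ← add_sum_erase univ (fun l => e x l - ε x) (mem_univ (0 : Fin (n + 1)))]
            ring
          rw [h5, abs_neg]
          refine (abs_sum_le_sum_abs _ _).trans ?_
          have h6 : ∑ l' ∈ univ.erase (0 : Fin (n + 1)), |(a : ℚ) * (e x l' - ε x) - z l'| ≤
              ∑ _l' ∈ univ.erase (0 : Fin (n + 1)), (1 : ℚ) / Q :=
            sum_le_sum fun l' hl' => hz l' (ne_of_mem_erase hl')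
          refine h6.trans (le_of_eq ?_)
          rw [sum_const, card_erase_of_mem (mem_univ _), card_univ, Fintype.card_fin,
            Nat.add_sub_cancel, nsmul_eq_mul]
          ring
        · beta_reduce
          rw [if_neg hl]
          refine (hz l hl).trans ?_
          rw [div_le_div_iff_of_pos_right hQ0]
          exact_mod_cast hn
      · rw [← add_sum_erase univ _ (mem_univ (0 : Fin (n + 1)))]
        beta_reduce
        rw [if_pos rfl]
        have h6 : ∑ l ∈ univ.erase (0 : Fin (n + 1)), ((a : ℚ) * (e x l - ε x) -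
            ((if l = 0 then a * w - ∑ l' ∈ univ.erase 0, z l' else z l : ℤ) : ℚ)) =
            ∑ l ∈ univ.erase (0 : Fin (n + 1)), ((a : ℚ) * (e x l - ε x) - z l) :=
          sum_congr rfl fun l hl => by rw [if_neg (ne_of_mem_erase hl)]
        rw [h6, hsplit]
        push_cast
        rw [← hw, ← add_sum_erase univ (fun l => e x l - ε x) (mem_univ (0 : Fin (n + 1)))]
        ring
    · have h1 : ∀ l, ∃ z : ℤ, e x l - ε x = z := fun l => int_of_den (hT x hx l)
      choose z hz using h1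
      refine ⟨fun l => a * z l, fun l => ?_, ?_⟩
      · simp only [hc]
        rw [if_neg hx, hz l]
        push_cast
        rw [sub_self, abs_zero]
      · refine sum_eq_zero fun l _ => ?_
        rw [hz l]; push_cast; ring
  choose z hz1 hz2 using hres
  have hSq : ((a * F - ∑ x, ∑ l, z x l : ℤ) : ℚ) = ((n + 1 : ℕ) : ℚ) * (a * ∑ x, ε x) := by
    push_cast
    rw [← hF, mul_sum, mul_sum, mul_sum, ← sum_sub_distrib]
    refine sum_congr rfl fun x _ => ?_
    have h1 := hz2 x
    rw [sum_sub_distrib, ← mul_sum, sum_sub_distrib, sum_const, card_univ, Fintype.card_fin,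
      nsmul_eq_mul] at h1
    push_cast at h1
    linarith
  set S := a * F - ∑ x, ∑ l, z x l with hSdef
  have hnd : ¬ ((n + 1 : ℕ) : ℤ) ∣ S := by
    rintro ⟨k, hk⟩
    have h1 : (S : ℚ) = ((n + 1 : ℕ) : ℚ) * k := by exact_mod_cast hk
    rw [hSq] at h1
    have h2 : (a : ℚ) * ∑ x, ε x = k := mul_left_cancel₀ (by positivity) h1
    -- `N ∑ ε` is an integer
    have h3 : ∃ w : ℤ, (N : ℚ) * ∑ x, ε x = w := by
      choose u hu using fun x => hNe x 0
      choose u' hu' using fun x => hNd x 0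
      refine ⟨∑ x, (u x - u' x), ?_⟩
      push_cast
      rw [mul_sum]
      refine sum_congr rfl fun x _ => ?_
      rw [← hu, ← hu']; ring
    obtain ⟨w, hw⟩ := h3
    obtain ⟨i, j, hij⟩ := haN'
    apply hsum (i * k + j * w)
    push_cast
    rw [← h2, ← hw]
    have : (i : ℚ) * a + j * N = 1 := by exact_mod_cast hij
    linear_combination (-∑ x, ε x) * this
  have hmod := Int.emod_nonneg S (b := ((n + 1 : ℕ) : ℤ)) (by omega)
  have hmod' := Int.emod_lt_of_pos S (b := ((n + 1 : ℕ) : ℤ)) (by omega)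
  have hne : S % ((n + 1 : ℕ) : ℤ) ≠ 0 := fun h => hnd (Int.dvd_of_emod_eq_zero h)
  have h := crit hF G x₀ haN' z (fun x => (a : ℚ) * ε x - c x)
    (fun x l => by
      have := (abs_le.1 (hz1 x l)).1
      linarith)
    (j := S % ((n + 1 : ℕ) : ℤ)) (k := S / ((n + 1 : ℕ) : ℤ))
    (by rw [← hSdef]; exact (Int.mul_ediv_add_emod S _).symm) hmod'
  have h0 : ∑ x, ∑ l, ((a : ℚ) * e x l - z x l - ((a : ℚ) * ε x - c x)) =
      ((n + 1 : ℕ) : ℚ) * ∑ x, c x := by
    rw [mul_sum]
    refine sum_congr rfl fun x _ => ?_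
    have h1 : ∀ l, (a : ℚ) * e x l - z x l - ((a : ℚ) * ε x - c x) =
        ((a : ℚ) * (e x l - ε x) - z x l) + c x := fun l => by ring
    rw [sum_congr rfl fun l _ => h1 l, sum_add_distrib, hz2 x, zero_add, sum_const, card_univ,
      Fintype.card_fin, nsmul_eq_mul]
  have hcs : ∑ x, c x = s * ((n : ℚ) / Q) := by
    simp only [hc]
    rw [sum_ite_mem, univ_inter, sum_const, nsmul_eq_mul]
  rw [h0, hcs] at h
  have h1 : (1 : ℚ) ≤ ((S % ((n + 1 : ℕ) : ℤ) : ℤ) : ℚ) := by
    have : 1 ≤ S % ((n + 1 : ℕ) : ℤ) := by omega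
    exact_mod_cast this
  have h2 : ((n + 1 : ℕ) : ℚ) * ((s : ℚ) * ((n : ℚ) / Q)) = 1 := by
    have hn0 : (n : ℚ) ≠ 0 := by
      have : n ≠ 0 := by omega
      exact_mod_cast this
    have hsq : (s : ℚ) ≠ 0 := by
      have : s ≠ 0 := by omega
      exact_mod_cast this
    rw [hQ]
    push_cast
    field_simp
  rw [h2] at h
  linarith

end Pool.Agent.Helper84.TY
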